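import Pool.Agent.H.MP_ab73e1_co.helper55.Team

/-!
# Counting the cops of the team
-/

namespace Pool.Agent.H.MP_ab73e1_co.helper55

open Filter

theorem eventually_small (c0 c1 c2 e : ℝ) (hc2 : 0 ≤ c2) (he : 0 < e) :
    ∀ᶠ K : ℕ in atTop, c0 + c2 * Real.sqrt K * (Real.log (K + 2) + c1) ≤ e * K := by
  have h1 : ∀ᶠ K : ℕ in atTop, c0 * (3 / e) ≤ (K : ℝ) :=
    tendsto_natCast_atTop_atTop.eventually (eventually_ge_atTop _)
  have hsq : Tendsto (fun K : ℕ => Real.sqrt (K : ℝ)) atTop atTop :=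
    Real.tendsto_sqrt_atTop.comp tendsto_natCast_atTop_atTop
  have h2 : ∀ᶠ K : ℕ in atTop, c2 * c1 * (3 / e) ≤ Real.sqrt (K : ℝ) :=
    hsq.eventually (eventually_ge_atTop _)
  have hc : 0 < e / (6 * (c2 + 1)) := by positivity
  have h3 : ∀ᶠ x : ℝ in atTop, ‖Real.log x‖ ≤ e / (6 * (c2 + 1)) * ‖x ^ (1 / 2 : ℝ)‖ :=
    (isLittleO_log_rpow_atTop (by norm_num : (0 : ℝ) < 1 / 2)).bound hc
  have ht : Tendsto (fun K : ℕ => (K : ℝ) + 2) atTop atTop :=
    tendsto_atTop_add_const_right _ _ tendsto_natCast_atTop_atTop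
  have h4 := ht.eventually h3
  filter_upwards [h1, h2, h4, eventually_ge_atTop 1] with K h1 h2 h4 hK
  have hKR : (1 : ℝ) ≤ K := by exact_mod_cast hK
  have hs := Real.sq_sqrt (show (0 : ℝ) ≤ K by positivity)
  have hs0 := Real.sqrt_nonneg (K : ℝ)
  have hlog : Real.log (K + 2) ≤ e / (6 * (c2 + 1)) * (2 * Real.sqrt K) := by
    rw [← Real.sqrt_eq_rpow] at h4
    have h5 : Real.log ((K : ℝ) + 2) ≤ ‖Real.log ((K : ℝ) + 2)‖ := Real.le_norm_self _
    have h6 : ‖Real.sqrt ((K : ℝ) + 2)‖ ≤ 2 * Real.sqrt K := by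
      rw [Real.norm_of_nonneg (Real.sqrt_nonneg _)]
      rw [Real.sqrt_le_left (by positivity)]
      rw [mul_pow, hs]
      linarith
    exact h5.trans (h4.trans (mul_le_mul_of_nonneg_left h6 hc.le))
  have a1 : c0 ≤ e / 3 * K := by
    have := mul_le_mul_of_nonneg_left h1 (show (0 : ℝ) ≤ e / 3 by positivity)
    have e1 : e / 3 * (c0 * (3 / e)) = c0 := by field_simp
    linarith
  have a2 : c2 * Real.sqrt K * c1 ≤ e / 3 * K := by
    have := mul_le_mul_of_nonneg_left h2 (show (0 : ℝ) ≤ e / 3 * Real.sqrt K by positivity)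
    have e1 : e / 3 * Real.sqrt K * (c2 * c1 * (3 / e)) = c2 * Real.sqrt K * c1 := by
      field_simp
    have e2 : e / 3 * Real.sqrt K * Real.sqrt K = e / 3 * K := by
      rw [mul_assoc, ← sq, hs]
    linarith
  have a3 : c2 * Real.sqrt K * Real.log (K + 2) ≤ e / 3 * K := by
    have h7 := mul_le_mul_of_nonneg_left hlog (show (0 : ℝ) ≤ c2 * Real.sqrt K by positivity)
    have h8 : c2 * Real.sqrt K * (e / (6 * (c2 + 1)) * (2 * Real.sqrt K)) =
        c2 / (c2 + 1) * (e / 3 * (Real.sqrt K) ^ 2) := by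
      field_simp
      ring
    have h9 : c2 / (c2 + 1) ≤ 1 := by
      rw [div_le_one (by positivity)]
      linarith
    have h10 : c2 / (c2 + 1) * (e / 3 * (Real.sqrt K) ^ 2) ≤ 1 * (e / 3 * (Real.sqrt K) ^ 2) :=
      mul_le_mul_of_nonneg_right h9 (by positivity)
    rw [hs] at h10 h8
    linarith
  linarith

/-- The number of break points used at scale `K`. -/
def jumps (d s K : ℕ) : ℕ := 64 * (d + 1) * (s + 1) * (Nat.sqrt K + 1)

theorem jumps_sq (d s K : ℕ) : 2048 * (d + 1) * s ^ 2 * K ≤ jumps d s K ^ 2 := by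
  unfold jumps
  have h1 : K ≤ (Nat.sqrt K + 1) ^ 2 := by
    have := Nat.lt_succ_sqrt K
    rw [sq]
    exact this.le
  have h2 : s ^ 2 ≤ (s + 1) ^ 2 := Nat.pow_le_pow_left (by omega) 2
  have h3 : d + 1 ≤ (d + 1) ^ 2 := by nlinarith
  calc 2048 * (d + 1) * s ^ 2 * K ≤ 4096 * (d + 1) ^ 2 * (s + 1) ^ 2 * (Nat.sqrt K + 1) ^ 2 := by
        gcongr
        norm_num
    _ = (64 * (d + 1) * (s + 1) * (Nat.sqrt K + 1)) ^ 2 := by ring

theorem tendsto_clog : Tendsto (fun n : ℕ => Nat.clog 2 n + 2) atTop atTop := by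
  rw [tendsto_atTop]
  intro B
  filter_upwards [eventually_ge_atTop (2 ^ B)] with n hn
  have h1 := Nat.le_pow_clog (b := 2) (by norm_num) n
  have h2 : 2 ^ B ≤ 2 ^ Nat.clog 2 n := hn.trans h1
  have h3 := (Nat.pow_le_pow_iff_right (by norm_num : 1 < 2)).mp h2
  omega

/-- The counting inequality. -/
theorem eventually_count (d s : ℕ) (ε : ℝ) (hε : 0 < ε) :
    ∀ᶠ K : ℕ in atTop,
      (8 : ℝ) * ((17 * s + 1) * ((K + 2) ^ jumps d s K *
        (64 * s + 1) ^ (jumps d s K + 1)) ^ (d + 1)) ≤ (2 : ℝ) ^ (ε * ((K : ℝ) - 3)) := by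
  set C : ℝ := 64 * (d + 1) * (s + 1) with hC
  have hC1 : 1 ≤ C := by
    rw [hC]
    have h1 : (0 : ℝ) ≤ d := by positivity
    have h2 : (0 : ℝ) ≤ s := by positivity
    nlinarith
  have hlog2 : 0 < Real.log 2 := Real.log_pos (by norm_num)
  have hl0 : 0 ≤ Real.log (64 * s + 1) := Real.log_nonneg (by
    have : (0 : ℝ) ≤ s := by positivity
    linarith)
  have he : 0 < ε * Real.log 2 / 2 := by positivity
  have hmain := eventually_small (Real.log (8 * (17 * s + 1))) (Real.log (64 * s + 1))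
    ((d + 1) * (3 * C)) (ε * Real.log 2 / 2) (by positivity) he
  filter_upwards [hmain, eventually_ge_atTop 6] with K hK h6
  have h6R : (6 : ℝ) ≤ K := by exact_mod_cast h6
  set J := jumps d s K with hJ
  -- bound on `J`
  have hsqrt1 : (1 : ℝ) ≤ Real.sqrt K := by
    rw [Real.one_le_sqrt]
    linarith
  have hJle : (J : ℝ) + 1 ≤ 3 * C * Real.sqrt K := by
    have h1 : (J : ℝ) = C * ((Nat.sqrt K : ℝ) + 1) := by
      rw [hJ, hC]
      unfold jumps
      push_cast
      ring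
    have h2 : (Nat.sqrt K : ℝ) ≤ Real.sqrt K := Real.nat_sqrt_le_real_sqrt
    rw [h1]
    have h3 : C * ((Nat.sqrt K : ℝ) + 1) ≤ C * (Real.sqrt K + 1) := by
      apply mul_le_mul_of_nonneg_left (by linarith) (by linarith)
    nlinarith
  have hpos : (0 : ℝ) < 8 * ((17 * s + 1) * ((K + 2) ^ J * (64 * s + 1) ^ (J + 1)) ^ (d + 1)) := by
    positivity
  rw [← Real.log_le_log_iff hpos (by positivity)]
  rw [Real.log_rpow (by norm_num)]
  have hexp : Real.log (8 * ((17 * s + 1) * ((K + 2) ^ J * (64 * s + 1) ^ (J + 1)) ^ (d + 1))) =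
      Real.log (8 * (17 * s + 1)) + (d + 1) * (J * Real.log (K + 2) +
        (J + 1) * Real.log (64 * s + 1)) := by
    have hin : Real.log (((K : ℝ) + 2) ^ J * (64 * s + 1) ^ (J + 1)) =
        J * Real.log (K + 2) + (J + 1) * Real.log (64 * s + 1) := by
      rw [Real.log_mul (by positivity) (by positivity), Real.log_pow, Real.log_pow]
      push_cast
      ring
    rw [← mul_assoc, Real.log_mul (by positivity) (by positivity), Real.log_pow, hin]
    push_cast
    ring
  rw [hexp]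
  have hlK : 0 ≤ Real.log (K + 2) := Real.log_nonneg (by linarith)
  have h7 : J * Real.log (K + 2) + (J + 1) * Real.log (64 * s + 1) ≤
      3 * C * Real.sqrt K * (Real.log (K + 2) + Real.log (64 * s + 1)) := by
    have h8 : J * Real.log (K + 2) ≤ 3 * C * Real.sqrt K * Real.log (K + 2) := by
      apply mul_le_mul_of_nonneg_right _ hlK
      linarith
    have h9 : (J + 1) * Real.log (64 * s + 1) ≤ 3 * C * Real.sqrt K * Real.log (64 * s + 1) :=
      mul_le_mul_of_nonneg_right hJle hl0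
    linarith
  have h10 := mul_le_mul_of_nonneg_left h7 (show (0 : ℝ) ≤ d + 1 by positivity)
  have h11 : ε * Real.log 2 / 2 * K ≤ ε * (K - 3) * Real.log 2 := by
    have h12 : (0 : ℝ) < ε * Real.log 2 := by positivity
    have h13 : ε * Real.log 2 * (K / 2) ≤ ε * Real.log 2 * (K - 3) :=
      mul_le_mul_of_nonneg_left (by linarith) h12.le
    linarith
  have h14 : (d + 1) * (3 * C * Real.sqrt K * (Real.log (K + 2) + Real.log (64 * s + 1))) =
      (d + 1) * (3 * C) * Real.sqrt K * (Real.log (K + 2) + Real.log (64 * s + 1)) := by ring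
  linarith

/-- In every dimension and against every speed, `n ^ (1 + ε)` cops win for all large `n`. -/
theorem copsWin_eventually (d s : ℕ) (ε : ℝ) (hε : 0 < ε) :
    ∀ᶠ n : ℕ in atTop, ∀ m : ℕ, (n : ℝ) ^ (1 + ε) ≤ m → CopsWin d n s m := by
  have h1 := tendsto_clog.eventually (eventually_count d s ε hε)
  filter_upwards [h1, eventually_ge_atTop 2] with n hcount hn m hm
  set K := Nat.clog 2 n + 2 with hK
  have hnR : (0 : ℝ) < n := by positivity
  have hclog : n ≤ 2 ^ Nat.clog 2 n := Nat.le_pow_clog (by norm_num) n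
  have hclog2 : 2 ^ (Nat.clog 2 n - 1) < n :=
    Nat.pow_pred_clog_lt_self (by norm_num) (by omega)
  have hcpos : 0 < Nat.clog 2 n := Nat.clog_pos (by norm_num) hn
  obtain ⟨L, hL⟩ : ∃ L, Nat.clog 2 n = L + 1 := ⟨Nat.clog 2 n - 1, by omega⟩
  rw [hL] at hclog hclog2 hK
  rw [Nat.add_sub_cancel] at hclog2
  have hKL : K = L + 3 := by omega
  apply copsWin_core (K := K) (J := jumps d s K) (by omega) (by omega)
  · have : K - 2 = L + 1 := by omega
    rw [this]
    exact hclog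
  · exact jumps_sq d s K
  · -- the count
    have h2 : ((2 : ℝ) ^ (ε * ((K : ℝ) - 3))) ≤ (n : ℝ) ^ ε := by
      have e1 : (2 : ℝ) ^ (ε * ((K : ℝ) - 3)) = ((2 : ℝ) ^ L) ^ ε := by
        have : (K : ℝ) - 3 = (L : ℝ) := by
          rw [hKL]; push_cast; ring
        rw [this, mul_comm, Real.rpow_mul (by norm_num), Real.rpow_natCast]
      rw [e1]
      apply Real.rpow_le_rpow (by positivity) _ hε.le
      exact_mod_cast hclog2.le
    have h3 : (2 : ℝ) ^ K + 1 ≤ 8 * n := by
      have h4 : 2 ^ K + 1 ≤ 8 * n := by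
        rw [hKL, pow_add]
        omega
      exact_mod_cast h4
    have h5 : (((2 ^ K + 1) * ((17 * s + 1) * ((K + 2) ^ jumps d s K *
        (64 * s + 1) ^ (jumps d s K + 1)) ^ (d + 1)) : ℕ) : ℝ) ≤ m := by
      refine le_trans ?_ hm
      rw [Real.rpow_add hnR, Real.rpow_one]
      push_cast
      calc ((2 : ℝ) ^ K + 1) * ((17 * s + 1) * ((K + 2) ^ jumps d s K *
              (64 * s + 1) ^ (jumps d s K + 1)) ^ (d + 1))
          ≤ (8 * n) * ((17 * s + 1) * ((K + 2) ^ jumps d s K *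
              (64 * s + 1) ^ (jumps d s K + 1)) ^ (d + 1)) := by
            apply mul_le_mul_of_nonneg_right h3 (by positivity)
        _ = n * (8 * ((17 * s + 1) * ((K + 2) ^ jumps d s K *
              (64 * s + 1) ^ (jumps d s K + 1)) ^ (d + 1))) := by ring
        _ ≤ n * (n : ℝ) ^ ε := by
            apply mul_le_mul_of_nonneg_left (hcount.trans h2) hnR.le
    exact_mod_cast h5

end Pool.Agent.H.MP_ab73e1_co.helper55
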