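import Mathlib

/-!
# Step functions with few jumps approximate sequences of small energy
-/

namespace Pool.Agent.H.MP_ab73e1_co.helper55

open Finset

/-- The number of break points `≤ k`. -/
def idx {J N : ℕ} (b : Fin J → Fin N) (k : ℕ) : ℕ := (univ.filter fun j => (b j : ℕ) ≤ k).card

theorem idx_lt {J N : ℕ} (b : Fin J → Fin N) (k : ℕ) : idx b k < J + 1 := by
  unfold idx
  have := card_le_univ (univ.filter fun j => (b j : ℕ) ≤ k)
  rw [Fintype.card_fin] at this
  omega

/-- The step function with break points `b` and values `v - 32 s`. -/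
def decode (s : ℕ) {J N M : ℕ} (b : Fin J → Fin N) (v : Fin (J + 1) → Fin M) (k : ℕ) : ℤ :=
  ((v ⟨idx b k, idx_lt b k⟩ : ℕ) : ℤ) - 32 * s

/-- The accumulated variation. -/
noncomputable def accVar (a : ℕ → ℝ) (k : ℕ) : ℝ := ∑ i ∈ range k, |a i - a (i + 1)|

theorem accVar_mono (a : ℕ → ℝ) : Monotone (accVar a) := by
  apply monotone_nat_of_le_succ
  intro k
  unfold accVar
  rw [sum_range_succ]
  have := abs_nonneg (a k - a (k + 1))
  linarith

theorem abs_sub_le_accVar (a : ℕ → ℝ) {k l : ℕ} (h : k ≤ l) :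
    |a k - a l| ≤ accVar a l - accVar a k := by
  induction l, h using Nat.le_induction with
  | base => simp
  | succ l hl ih =>
    have h1 : accVar a (l + 1) = accVar a l + |a l - a (l + 1)| := by
      unfold accVar
      rw [sum_range_succ]
    have h2 := abs_sub_le (a k) (a l) (a (l + 1))
    linarith

theorem abs_sub_lt_of_floor_eq (a : ℕ → ℝ) {k l : ℕ}
    (h : ⌊32 * accVar a k⌋₊ = ⌊32 * accVar a l⌋₊) : |a k - a l| ≤ 1 / 32 := by
  have hnn : ∀ k, 0 ≤ accVar a k := fun k => sum_nonneg (fun _ _ => abs_nonneg _)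
  have aux : ∀ k l, k ≤ l → ⌊32 * accVar a k⌋₊ = ⌊32 * accVar a l⌋₊ →
      |a k - a l| ≤ 1 / 32 := by
    intro k l hkl h
    have h1 := abs_sub_le_accVar a hkl
    have h2 : (⌊32 * accVar a k⌋₊ : ℝ) ≤ 32 * accVar a k := Nat.floor_le (by
      have := hnn k; linarith)
    have h3 := Nat.lt_floor_add_one (32 * accVar a l)
    rw [← h] at h3
    linarith
  rcases le_total k l with hkl | hkl
  · exact aux k l hkl h
  · rw [abs_sub_comm]
    exact aux l k hkl h.symm

/-- A sequence of small energy is approximated by a step function with few jumps. -/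
theorem exists_code (K J s : ℕ) (a : ℕ → ℝ) (hs : ∀ k ≤ K, |a k| ≤ s)
    (hE : 1024 * (K * ∑ k ∈ range K, (a k - a (k + 1)) ^ 2) ≤ (J : ℝ) ^ 2) :
    ∃ (b : Fin J → Fin (K + 2)) (v : Fin (J + 1) → Fin (64 * s + 1)),
      ∀ k ≤ K, |(decode s b v k : ℝ) / 32 - a k| ≤ 3 / 64 := by
  classical
  set I : ℕ → ℕ := fun k => ⌊32 * accVar a k⌋₊ with hI
  have hnn : ∀ k, 0 ≤ accVar a k := fun k => sum_nonneg (fun _ _ => abs_nonneg _)
  have hImono : Monotone I := by
    intro k l hkl
    apply Nat.floor_le_floor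
    have := accVar_mono a hkl
    linarith
  -- the number of steps
  have hIK : I K ≤ J := by
    have h1 : (accVar a K) ^ 2 ≤ K * ∑ k ∈ range K, (a k - a (k + 1)) ^ 2 := by
      unfold accVar
      have h2 := sq_sum_le_card_mul_sum_sq (s := range K) (f := fun i => |a i - a (i + 1)|)
      rw [card_range] at h2
      refine h2.trans (le_of_eq ?_)
      congr 1
      apply sum_congr rfl
      intro i _
      exact sq_abs _
    have h2 : (32 * accVar a K) ^ 2 ≤ (J : ℝ) ^ 2 := by nlinarith
    have h3 : 32 * accVar a K ≤ (J : ℝ) := by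
      apply le_of_sq_le_sq h2 (by positivity)
    have h4 : I K ≤ ⌊(J : ℝ)⌋₊ := Nat.floor_le_floor h3
    rwa [Nat.floor_natCast] at h4
  -- the break points
  let b : Fin J → Fin (K + 2) := fun j =>
    if h : ∃ k, k ≤ K ∧ (j : ℕ) < I k then ⟨Nat.find h, by
      have := (Nat.find_spec h).1
      omega⟩ else ⟨K + 1, by omega⟩
  have hb : ∀ (j : Fin J) (k : ℕ), k ≤ K → ((b j : ℕ) ≤ k ↔ (j : ℕ) < I k) := by
    intro j k hk
    constructor
    · intro hle
      by_cases h : ∃ k, k ≤ K ∧ (j : ℕ) < I k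
      · have e : (b j : ℕ) = Nat.find h := by simp only [b, dif_pos h]
        rw [e] at hle
        exact lt_of_lt_of_le (Nat.find_spec h).2 (hImono hle)
      · have e : (b j : ℕ) = K + 1 := by simp only [b, dif_neg h]
        omega
    · intro hlt
      have h : ∃ k, k ≤ K ∧ (j : ℕ) < I k := ⟨k, hk, hlt⟩
      have e : (b j : ℕ) = Nat.find h := by simp only [b, dif_pos h]
      rw [e]
      exact Nat.find_min' h ⟨hk, hlt⟩
  have hidx : ∀ k ≤ K, idx b k = I k := by
    intro k hk
    have hIk : I k ≤ J := (hImono hk).trans hIK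
    unfold idx
    have h1 : (univ.filter fun j : Fin J => (b j : ℕ) ≤ k) =
        univ.filter fun j : Fin J => (j : ℕ) < I k := by
      apply filter_congr
      intro j _
      exact hb j k hk
    rw [h1, Fin.card_filter_val_lt]
    exact min_eq_right hIk
  -- the values
  have hround : ∀ k ≤ K, -(32 * (s : ℤ)) ≤ round (32 * a k) ∧ round (32 * a k) ≤ 32 * s := by
    intro k hk
    have h1 := abs_le.mp (hs k hk)
    have h2 := abs_le.mp (abs_sub_round (32 * a k))
    constructor
    · have h3 : (-(32 * (s : ℤ)) - 1 : ℝ) < round (32 * a k) := by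
        push_cast
        linarith [h2.2, h1.1]
      have h4 : (-(32 * (s : ℤ)) - 1 : ℤ) < round (32 * a k) := by
        exact_mod_cast h3
      omega
    · have h3 : (round (32 * a k) : ℝ) < (32 * (s : ℤ) + 1 : ℝ) := by
        push_cast
        linarith [h2.1, h1.2]
      have h4 : round (32 * a k) < (32 * (s : ℤ) + 1 : ℤ) := by
        exact_mod_cast h3
      omega
  let v : Fin (J + 1) → Fin (64 * s + 1) := fun i =>
    if h : ∃ k, k ≤ K ∧ I k = (i : ℕ) then
      ⟨(round (32 * a (Nat.find h)) + 32 * s).toNat, by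
        have := hround _ (Nat.find_spec h).1
        omega⟩ else ⟨0, by omega⟩
  refine ⟨b, v, ?_⟩
  intro k hk
  have hex : ∃ k', k' ≤ K ∧ I k' = idx b k := ⟨k, hk, (hidx k hk).symm⟩
  have hv : decode s b v k = round (32 * a (Nat.find hex)) := by
    unfold decode
    have e : ((v ⟨idx b k, idx_lt b k⟩ : ℕ) : ℤ) = round (32 * a (Nat.find hex)) + 32 * s := by
      simp only [v, dif_pos hex]
      rw [Int.toNat_of_nonneg]
      have := hround _ (Nat.find_spec hex).1
      omega
    rw [e]
    ring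
  rw [hv]
  have h1 := abs_le.mp (abs_sub_round (32 * a (Nat.find hex)))
  have h2 := ((Nat.find_spec hex).2).trans (hidx k hk)
  have h3 := abs_le.mp (abs_sub_lt_of_floor_eq a h2)
  rw [abs_le]
  constructor <;> linarith [h1.1, h1.2, h3.1, h3.2]

end Pool.Agent.H.MP_ab73e1_co.helper55
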