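import Pool.Agent.H.MP_ab73e1_co.helper55.Game

/-!
# The strategy of a single cop

The cop has a meeting time `T`, a starting vertex `c₀` and, for every scale `k ≤ K`, a guess
`A c k` for the displacement of the robber (in coordinate `c`) between the times `T - 2 ^ k`
and `T`. At time `T - 2 ^ k` he learns the robber's position and starts moving to the predicted
position of the robber at time `T`.
-/

namespace Pool.Agent.H.MP_ab73e1_co.helper55

variable {d : ℕ}

/-- One step of a cop coordinate from `a` towards `b`. -/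
def stepTo (a b : ℤ) : ℤ := a + max (-1) (min 1 (b - a))

theorem stepTo_near (a b : ℤ) : |a - stepTo a b| ≤ 1 := by
  unfold stepTo
  rw [abs_le]
  omega

theorem stepTo_mem {a b lo hi : ℤ} (ha : lo ≤ a ∧ a ≤ hi) (hb : lo ≤ b ∧ b ≤ hi) :
    lo ≤ stepTo a b ∧ stepTo a b ≤ hi := by
  unfold stepTo
  omega

theorem stepTo_dist {a b : ℤ} {N : ℕ} (h : |b - a| ≤ (N : ℤ) + 1) :
    |b - stepTo a b| ≤ N := by
  unfold stepTo
  rw [abs_le] at *
  omega

/-- Coordinate `c` of the board: coordinate `0` is unrestricted, the others lie in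
`{1, …, n}`. -/
def clampc (n : ℕ) (c : Fin (d + 1)) (x : ℤ) : ℤ := if c = 0 then x else max 1 (min n x)

theorem clampc_mem {n : ℕ} (hn : 1 ≤ n) {c : Fin (d + 1)} (hc : c ≠ 0) (x : ℤ) :
    1 ≤ clampc n c x ∧ clampc n c x ≤ (n : ℤ) := by
  unfold clampc
  rw [if_neg hc]
  omega

theorem clampc_dist {n : ℕ} {c : Fin (d + 1)} {x y : ℤ}
    (hy : c ≠ 0 → 1 ≤ y ∧ y ≤ (n : ℤ)) : |clampc n c x - y| ≤ |x - y| := by
  unfold clampc
  split_ifs with h
  · exact le_rfl
  · have := hy h
    rcases le_total x y with h1 | h1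
    · rw [abs_of_nonpos (by omega : x - y ≤ 0), abs_le]
      omega
    · rw [abs_of_nonneg (by omega : 0 ≤ x - y), abs_le]
      omega

/-- Position after `u` rounds of the cop with meeting time `T`, guesses `A` and starting vertex
`c₀`, against the robber path `X`. -/
def pos0 (n K T : ℕ) (A : Fin (d + 1) → ℕ → ℤ) (c₀ : Vtx d) (X : ℕ → Vtx d) : ℕ → Vtx d
  | 0 => c₀
  | u + 1 => fun c =>
      if u < T ∧ T ≤ u + 2 ^ K then
        stepTo (pos0 n K T A c₀ X u c)
          (clampc n c (X (T - 2 ^ Nat.clog 2 (T - u)) c + A c (Nat.clog 2 (T - u))))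
      else pos0 n K T A c₀ X u c

theorem pos0_succ (n K T : ℕ) (A : Fin (d + 1) → ℕ → ℤ) (c₀ : Vtx d) (X : ℕ → Vtx d) (u : ℕ)
    (c : Fin (d + 1)) : pos0 n K T A c₀ X (u + 1) c =
      if u < T ∧ T ≤ u + 2 ^ K then
        stepTo (pos0 n K T A c₀ X u c)
          (clampc n c (X (T - 2 ^ Nat.clog 2 (T - u)) c + A c (Nat.clog 2 (T - u))))
      else pos0 n K T A c₀ X u c := rfl

theorem pos0_near (n K T : ℕ) (A : Fin (d + 1) → ℕ → ℤ) (c₀ : Vtx d) (X : ℕ → Vtx d) (u : ℕ) :
    Near 1 (pos0 n K T A c₀ X u) (pos0 n K T A c₀ X (u + 1)) := by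
  intro c
  rw [pos0_succ]
  split_ifs
  · exact stepTo_near _ _
  · simp

theorem pos0_onBoard {n : ℕ} (hn : 1 ≤ n) (K T : ℕ) (A : Fin (d + 1) → ℕ → ℤ) {c₀ : Vtx d}
    (hc : OnBoard n c₀) (X : ℕ → Vtx d) (u : ℕ) : OnBoard n (pos0 n K T A c₀ X u) := by
  induction u with
  | zero => exact hc
  | succ u ih =>
    intro i
    rw [pos0_succ]
    split_ifs
    · exact stepTo_mem (ih i) (clampc_mem hn (Fin.succ_ne_zero i) _)
    · exact ih i

theorem pos0_congr (n K T : ℕ) (A : Fin (d + 1) → ℕ → ℤ) (c₀ : Vtx d) {X X' : ℕ → Vtx d}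
    {t : ℕ} (h : ∀ u < t, X u = X' u) : pos0 n K T A c₀ X t = pos0 n K T A c₀ X' t := by
  induction t with
  | zero => rfl
  | succ t ih =>
    have ih' := ih (fun u hu => h u (by omega))
    funext c
    rw [pos0_succ, pos0_succ, ih']
    split_ifs with h1
    · have h2 : T - 2 ^ Nat.clog 2 (T - t) < t + 1 := by
        have := Nat.le_pow_clog (b := 2) (by norm_num) (T - t)
        omega
      rw [h _ h2]
    · rfl

/-- Length of the stage of scale `k`. -/
def stageLen (k : ℕ) : ℕ := if k = 0 then 1 else 2 ^ (k - 1)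

theorem clog_stage {k ρ : ℕ} (h1 : 2 ^ k - stageLen k < ρ) (h2 : ρ ≤ 2 ^ k) :
    Nat.clog 2 ρ = k := by
  unfold stageLen at h1
  rcases k with _ | k
  · simp at h1 h2
    have : ρ = 1 := by omega
    subst this
    exact Nat.clog_one_right 2
  · simp only [Nat.succ_ne_zero, if_false, Nat.add_sub_cancel] at h1
    have h3 : 2 ^ (k + 1) - 2 ^ k = 2 ^ k := by
      rw [pow_succ]; omega
    rw [h3] at h1
    apply le_antisymm
    · exact Nat.clog_le_of_le_pow h2
    · by_contra hlt
      have h4 : Nat.clog 2 ρ ≤ k := by omega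
      have h5 := Nat.le_pow_clog (b := 2) (by norm_num) ρ
      have h6 : 2 ^ Nat.clog 2 ρ ≤ 2 ^ k := Nat.pow_le_pow_right (by norm_num) h4
      omega

/-- During the stage of scale `k` the cop approaches his target. -/
theorem pos0_stage (n K T : ℕ) (A : Fin (d + 1) → ℕ → ℤ) (c₀ : Vtx d) (X : ℕ → Vtx d)
    {k : ℕ} (hk : k ≤ K) (hT : 2 ^ K ≤ T) (c : Fin (d + 1))
    (h : |clampc n c (X (T - 2 ^ k) c + A c k) - pos0 n K T A c₀ X (T - 2 ^ k) c|
      ≤ (stageLen k : ℤ)) :
    pos0 n K T A c₀ X (T - 2 ^ k + stageLen k) c = clampc n c (X (T - 2 ^ k) c + A c k) := by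
  have hkK : 2 ^ k ≤ 2 ^ K := Nat.pow_le_pow_right (by norm_num) hk
  have hlen : stageLen k ≤ 2 ^ k := by
    unfold stageLen
    split_ifs with h0
    · exact Nat.one_le_two_pow
    · exact Nat.pow_le_pow_right (by norm_num) (by omega)
  have main : ∀ i, i ≤ stageLen k →
      |clampc n c (X (T - 2 ^ k) c + A c k) - pos0 n K T A c₀ X (T - 2 ^ k + i) c|
        ≤ ((stageLen k - i : ℕ) : ℤ) := by
    intro i
    induction i with
    | zero => intro _; simpa using h
    | succ i ih =>
      intro hi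
      have ih' := ih (by omega)
      have hcl : Nat.clog 2 (T - (T - 2 ^ k + i)) = k := by
        apply clog_stage <;> omega
      rw [← Nat.add_assoc, pos0_succ, if_pos (by constructor <;> omega), hcl]
      apply stepTo_dist
      refine ih'.trans ?_
      omega
  have := main (stageLen k) le_rfl
  rw [Nat.sub_self, Nat.cast_zero] at this
  have h0 := abs_nonpos_iff.mp this
  omega

/-- A cop whose guesses are accurate and who starts close to the meeting point catches the
robber at time `T`. -/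
theorem pos0_catch (n K T : ℕ) (A : Fin (d + 1) → ℕ → ℤ) (c₀ : Vtx d) (X : ℕ → Vtx d)
    (hK : 2 ≤ K) (hT : 2 ^ K ≤ T) (hX : OnBoard n (X T))
    (hA : ∀ c, ∀ k ≤ K, 16 * |A c k - (X T c - X (T - 2 ^ k) c)| ≤ 2 ^ k + 8)
    (hc : ∀ c, |c₀ c - X T c| ≤ 2 ^ (K - 2)) :
    pos0 n K T A c₀ X T = X T := by
  funext c
  have hXc : c ≠ 0 → 1 ≤ X T c ∧ X T c ≤ (n : ℤ) := by
    intro h0
    obtain ⟨i, rfl⟩ := Fin.exists_succ_eq.mpr h0
    exact hX i
  -- distance of the targets to the meeting point
  have hQ : ∀ k ≤ K, 16 * |clampc n c (X (T - 2 ^ k) c + A c k) - X T c| ≤ 2 ^ k + 8 := by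
    intro k hk
    have h1 := clampc_dist (n := n) (c := c) (x := X (T - 2 ^ k) c + A c k) hXc
    have h2 := hA c k hk
    have h3 : X (T - 2 ^ k) c + A c k - X T c = A c k - (X T c - X (T - 2 ^ k) c) := by ring
    rw [h3] at h1
    linarith
  have hpow : ∀ k : ℕ, ((2 : ℤ) ^ (k + 1)) = 2 * 2 ^ k := fun k => by ring
  have hstage : ∀ j, j ≤ K →
      pos0 n K T A c₀ X (T - 2 ^ (K - j) + stageLen (K - j)) c =
        clampc n c (X (T - 2 ^ (K - j)) c + A c (K - j)) := by
    intro j
    induction j with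
    | zero =>
      intro _
      apply pos0_stage n K T A c₀ X (by omega) hT c
      rw [Nat.sub_zero]
      have hinit : ∀ u, u ≤ T - 2 ^ K → pos0 n K T A c₀ X u c = c₀ c := by
        intro u
        induction u with
        | zero => intro _; rfl
        | succ u ih =>
          intro hu
          rw [pos0_succ, if_neg (by omega)]
          exact ih (by omega)
      rw [hinit _ le_rfl]
      have h1 := hQ K le_rfl
      have h2 := hc c
      have h3 : |clampc n c (X (T - 2 ^ K) c + A c K) - c₀ c| ≤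
          |clampc n c (X (T - 2 ^ K) c + A c K) - X T c| + |c₀ c - X T c| := by
        have := abs_sub_le (clampc n c (X (T - 2 ^ K) c + A c K)) (X T c) (c₀ c)
        rw [abs_sub_comm (X T c) (c₀ c)] at this
        exact this
      unfold stageLen
      rw [if_neg (by omega)]
      obtain ⟨L, rfl⟩ : ∃ L, K = L + 2 := ⟨K - 2, by omega⟩
      have e1 : L + 2 - 1 = L + 1 := by omega
      have e2 : L + 2 - 2 = L := by omega
      rw [e1]
      rw [e2] at h2
      push_cast
      have hp : (1 : ℤ) ≤ 2 ^ L := one_le_pow₀ (by norm_num)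
      have hp2 : (2 : ℤ) ^ (L + 2) = 4 * 2 ^ L := by ring
      rw [hp2] at h1
      rw [hpow]
      omega
    | succ j ih =>
      intro hj
      have ih' := ih (by omega)
      apply pos0_stage n K T A c₀ X (by omega) hT c
      obtain ⟨k, hk⟩ : ∃ k, K - j = k + 1 := ⟨K - j - 1, by omega⟩
      have hk' : K - (j + 1) = k := by omega
      rw [hk] at ih'
      rw [hk']
      have hkK : 2 ^ (k + 1) ≤ 2 ^ K := Nat.pow_le_pow_right (by norm_num) (by omega)
      have hend : T - 2 ^ (k + 1) + stageLen (k + 1) = T - 2 ^ k := by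
        unfold stageLen
        rw [if_neg (by omega), Nat.add_sub_cancel]
        rw [pow_succ] at *
        omega
      rw [hend] at ih'
      rw [ih']
      have h1 := hQ k (by omega)
      have h2 := hQ (k + 1) (by omega)
      have h3 : |clampc n c (X (T - 2 ^ k) c + A c k) -
          clampc n c (X (T - 2 ^ (k + 1)) c + A c (k + 1))| ≤
          |clampc n c (X (T - 2 ^ k) c + A c k) - X T c| +
          |clampc n c (X (T - 2 ^ (k + 1)) c + A c (k + 1)) - X T c| := by
        have := abs_sub_le (clampc n c (X (T - 2 ^ k) c + A c k)) (X T c)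
          (clampc n c (X (T - 2 ^ (k + 1)) c + A c (k + 1)))
        rw [abs_sub_comm (X T c) (clampc n c (X (T - 2 ^ (k + 1)) c + A c (k + 1)))] at this
        exact this
      rw [hpow] at h2
      unfold stageLen
      rcases k with _ | _ | k
      · simp at h1 h2 h3 ⊢
        omega
      · simp at h1 h2 h3 ⊢
        omega
      · rw [if_neg (by omega)]
        have e1 : k + 1 + 1 - 1 = k + 1 := by omega
        rw [e1]
        push_cast
        have hp : (1 : ℤ) ≤ 2 ^ k := one_le_pow₀ (by norm_num)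
        have hp2 : (2 : ℤ) ^ (k + 1 + 1) = 4 * 2 ^ k := by ring
        rw [hp2] at h1 h2
        rw [hpow]
        omega
  have hfin := hstage K le_rfl
  rw [Nat.sub_self] at hfin
  have hone : 1 ≤ T := le_trans Nat.one_le_two_pow hT
  have e : T - 2 ^ 0 + stageLen 0 = T := by
    unfold stageLen
    simp
    omega
  rw [e] at hfin
  rw [hfin]
  have h1 := hQ 0 (Nat.zero_le _)
  have h2 : |clampc n c (X (T - 2 ^ 0) c + A c 0) - X T c| ≤ 0 := by
    generalize |clampc n c (X (T - 2 ^ 0) c + A c 0) - X T c| = z at h1 ⊢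
    norm_num at h1
    omega
  have h3 := abs_nonpos_iff.mp h2
  omega

end Pool.Agent.H.MP_ab73e1_co.helper55
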