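import Mathlib

/-!
# The game of `d`-dimensional Rugby

Definitions of the board `ℤ × [n]^d`, of the moves, and of the winning conditions of the
pursuit game of `d`-dimensional Rugby with `m` cops and a robber of speed `s`.
-/

namespace Pool.Agent.H.MP_ab73e1_co.helper55

/-- A point of `ℤ × ℤ^d`: `v 0` is its first coordinate and `v i.succ`, for `i : Fin d`, are the
other `d` coordinates. -/
abbrev Vtx (d : ℕ) : Type := Fin (d + 1) → ℤ

/-- `v` is a vertex of the board `ℤ × [n]^d`, i.e. its last `d` coordinates lie in
`{1, …, n}`. -/
def OnBoard (n : ℕ) {d : ℕ} (v : Vtx d) : Prop :=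
  ∀ i : Fin d, 1 ≤ v i.succ ∧ v i.succ ≤ (n : ℤ)

/-- The `ℓ_∞`-distance of `u` and `v` is at most `r`. For `r = 1` this says that `u` and `v` are
equal or adjacent. -/
def Near {d : ℕ} (r : ℕ) (u v : Vtx d) : Prop := ∀ i, |u i - v i| ≤ (r : ℤ)

/-- The history `[f (t - 1), …, f 0]` of a sequence `f` before time `t`, latest entry first. -/
def hist {α : Type} (f : ℕ → α) : ℕ → List α
  | 0 => []
  | t + 1 => f t :: hist f t

/-- `c t j` is the position of cop `j` after `t` rounds. The sequence is legal when the cops
always are on the board and in every round each cop moves to an adjacent vertex or stays put. -/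
def LegalCops (n : ℕ) {d m : ℕ} (c : ℕ → Fin m → Vtx d) : Prop :=
  (∀ t j, OnBoard n (c t j)) ∧ ∀ t j, Near 1 (c t j) (c (t + 1) j)

/-- `r t` is the position of the robber after `t` rounds, and `c₀` is the initial placement of the
cops. The sequence is legal when the robber starts at a point `(-C, n, …, n)` whose first
coordinate is at least `2 n` smaller than the first coordinate of every cop, is always on the
board, and moves by at most `s` in `ℓ_∞`-distance in every round. -/
def LegalRobber (n s : ℕ) {d m : ℕ} (c₀ : Fin m → Vtx d) (r : ℕ → Vtx d) : Prop :=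
  ((∀ i : Fin d, r 0 i.succ = (n : ℤ)) ∧ ∀ j, r 0 0 + 2 * (n : ℤ) ≤ c₀ j 0) ∧
    (∀ t, OnBoard n (r t)) ∧ ∀ t, Near s (r t) (r (t + 1))

/-- The robber wins the play in which, after `t` rounds, the cops are at `c t` and the robber is
at `r t`: for every positive integer `k` his first coordinate exceeds `k` at some time, and no cop
is ever on the same vertex as him, neither after his move nor after the cops' move. -/
def RobberWins {d m : ℕ} (c : ℕ → Fin m → Vtx d) (r : ℕ → Vtx d) : Prop :=
  (∀ k : ℕ, 0 < k → ∃ t, (k : ℤ) < r t 0) ∧ ∀ t j, c t j ≠ r t ∧ c (t + 1) j ≠ r t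

/-- The cops have a winning strategy: there is a rule `τ`, giving the positions of the `m` cops
after `t` rounds as a function of the robber's positions after `0, …, t - 1` rounds (so `τ []` is
the initial placement), which only makes legal moves and such that no legal sequence of robber
positions wins against it. -/
def CopsWin (d n s m : ℕ) : Prop :=
  ∃ τ : List (Vtx d) → Fin m → Vtx d, ∀ r : ℕ → Vtx d,
    LegalCops n (fun t => τ (hist r t)) ∧
      (LegalRobber n s (τ []) r → ¬ RobberWins (fun t => τ (hist r t)) r)

/-- A robber of speed `s` beats `m` cops: there is a rule `σ`, giving the position of the robber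
after `t` rounds as a function of the placements of the cops after `0, …, t` rounds, such that
against every initial placement and all legal moves of the `m` cops it makes legal moves and
the robber wins. -/
def RobberBeats (d n s m : ℕ) : Prop :=
  ∃ σ : List (Fin m → Vtx d) → Vtx d, ∀ c : ℕ → Fin m → Vtx d, LegalCops n c →
    LegalRobber n s (c 0) (fun t => σ (hist c (t + 1))) ∧
      RobberWins c (fun t => σ (hist c (t + 1)))

end Pool.Agent.H.MP_ab73e1_co.helper55
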