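import Mathlib

/-!
# Dyadic energy of a Lipschitz path

`avgv x k T` is the average velocity of the path `x` in the time interval `[T - 2 ^ k, T]`.
For a path of bounded speed these averages hardly change with the scale `k`, for most `T`.
-/

namespace Pool.Agent.H.MP_ab73e1_co.helper55

open Finset

/-- The average velocity of `x` between the times `T - 2 ^ k` and `T`. -/
noncomputable def avgv (x : ℕ → ℝ) (k T : ℕ) : ℝ := (x T - x (T - 2 ^ k)) / 2 ^ k

theorem avgv_succ (x : ℕ → ℝ) {k T : ℕ} :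
    avgv x (k + 1) T = (avgv x k T + avgv x k (T - 2 ^ k)) / 2 := by
  unfold avgv
  have h : T - 2 ^ (k + 1) = T - 2 ^ k - 2 ^ k := by
    rw [pow_succ]; omega
  rw [h]
  have h2 : (2 : ℝ) ^ k ≠ 0 := by positivity
  field_simp
  ring

theorem energy_step (x : ℕ → ℝ) (k H : ℕ) :
    ∑ T ∈ Icc (2 ^ (k + 1)) H, (avgv x (k + 1) T) ^ 2 +
      ∑ T ∈ Icc (2 ^ (k + 1)) H, (avgv x k T - avgv x (k + 1) T) ^ 2 ≤
      ∑ T ∈ Icc (2 ^ k) H, (avgv x k T) ^ 2 := by
  have hk : (2 : ℕ) ^ (k + 1) = 2 ^ k + 2 ^ k := by rw [pow_succ]; omega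
  have hkle : (2 : ℕ) ^ k ≤ 2 ^ (k + 1) := Nat.pow_le_pow_right (by norm_num) (by omega)
  have h1 : ∑ T ∈ Icc (2 ^ (k + 1)) H, (avgv x k T) ^ 2 ≤
      ∑ T ∈ Icc (2 ^ k) H, (avgv x k T) ^ 2 := by
    apply sum_le_sum_of_subset_of_nonneg
    · apply Icc_subset_Icc_left
      exact hkle
    · intro i _ _
      positivity
  have h2 : ∑ T ∈ Icc (2 ^ (k + 1)) H, (avgv x k (T - 2 ^ k)) ^ 2 ≤
      ∑ T ∈ Icc (2 ^ k) H, (avgv x k T) ^ 2 := by
    have hinj : Set.InjOn (fun T => T - 2 ^ k) (Icc (2 ^ (k + 1)) H : Finset ℕ) := by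
      intro a ha b hb hab
      rw [mem_coe, mem_Icc, hk] at ha hb
      simp only at hab
      generalize (2 : ℕ) ^ k = p at ha hb hab
      omega
    rw [← sum_image (s := Icc (2 ^ (k + 1)) H) (g := fun T => T - 2 ^ k)
      (f := fun T => (avgv x k T) ^ 2) hinj]
    apply sum_le_sum_of_subset_of_nonneg
    · intro a ha
      rw [mem_image] at ha
      obtain ⟨b, hb, rfl⟩ := ha
      rw [mem_Icc, hk] at hb
      rw [mem_Icc]
      generalize (2 : ℕ) ^ k = p at hb ⊢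
      omega
    · intro i _ _
      positivity
  have h3 : ∑ T ∈ Icc (2 ^ (k + 1)) H, (avgv x (k + 1) T) ^ 2 +
      ∑ T ∈ Icc (2 ^ (k + 1)) H, (avgv x k T - avgv x (k + 1) T) ^ 2 =
      (∑ T ∈ Icc (2 ^ (k + 1)) H, (avgv x k T) ^ 2 +
        ∑ T ∈ Icc (2 ^ (k + 1)) H, (avgv x k (T - 2 ^ k)) ^ 2) / 2 := by
    rw [← sum_add_distrib, ← sum_add_distrib, sum_div]
    apply sum_congr rfl
    intro T _
    rw [avgv_succ]
    ring
  rw [h3]
  linarith

theorem energy_sum (x : ℕ → ℝ) (K H : ℕ) :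
    ∑ k ∈ range K, ∑ T ∈ Icc (2 ^ (k + 1)) H, (avgv x k T - avgv x (k + 1) T) ^ 2 ≤
      ∑ T ∈ Icc 1 H, (avgv x 0 T) ^ 2 := by
  have main : ∑ T ∈ Icc (2 ^ K) H, (avgv x K T) ^ 2 +
      ∑ k ∈ range K, ∑ T ∈ Icc (2 ^ (k + 1)) H, (avgv x k T - avgv x (k + 1) T) ^ 2 ≤
      ∑ T ∈ Icc 1 H, (avgv x 0 T) ^ 2 := by
    induction K with
    | zero => simp
    | succ K ih =>
      rw [sum_range_succ]
      have := energy_step x K H
      linarith
  have h0 : 0 ≤ ∑ T ∈ Icc (2 ^ K) H, (avgv x K T) ^ 2 := by positivity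
  linarith

/-- The total dyadic energy of a path of speed at most `s`, over the meeting times
`T ∈ [2 ^ K, H]`. -/
theorem energy_bound (x : ℕ → ℝ) (s : ℝ) (K H : ℕ) (hx : ∀ u, |x (u + 1) - x u| ≤ s) :
    ∑ T ∈ Icc (2 ^ K) H, ∑ k ∈ range K, (avgv x k T - avgv x (k + 1) T) ^ 2 ≤ H * s ^ 2 := by
  rw [sum_comm]
  have h1 : ∑ k ∈ range K, ∑ T ∈ Icc (2 ^ K) H, (avgv x k T - avgv x (k + 1) T) ^ 2 ≤
      ∑ k ∈ range K, ∑ T ∈ Icc (2 ^ (k + 1)) H, (avgv x k T - avgv x (k + 1) T) ^ 2 := by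
    apply sum_le_sum
    intro k hk
    rw [mem_range] at hk
    apply sum_le_sum_of_subset_of_nonneg
    · apply Icc_subset_Icc_left
      exact Nat.pow_le_pow_right (by norm_num) hk
    · intro i _ _
      positivity
  have h2 := energy_sum x K H
  have h3 : ∑ T ∈ Icc 1 H, (avgv x 0 T) ^ 2 ≤ ∑ T ∈ Icc 1 H, s ^ 2 := by
    apply sum_le_sum
    intro T hT
    rw [mem_Icc] at hT
    have h4 := hx (T - 1)
    rw [Nat.sub_add_cancel hT.1] at h4
    unfold avgv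
    simp only [pow_zero, div_one]
    exact sq_le_sq' (by linarith [(abs_le.mp h4).1]) (abs_le.mp h4).2
  have h4 : ∑ T ∈ Icc 1 H, s ^ 2 = H * s ^ 2 := by
    rw [sum_const, Nat.card_Icc]
    simp
  linarith

/-- The average velocity is bounded by the speed. -/
theorem abs_avgv_le (x : ℕ → ℝ) (s : ℝ) (hx : ∀ u, |x (u + 1) - x u| ≤ s) {k T : ℕ}
    (hT : 2 ^ k ≤ T) : |avgv x k T| ≤ s := by
  have h1 : ∀ u v, |x (u + v) - x u| ≤ v * s := by
    intro u v
    induction v with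
    | zero => simp
    | succ v ih =>
      have h2 := hx (u + v)
      have h3 := abs_sub_le (x (u + (v + 1))) (x (u + v)) (x u)
      rw [← add_assoc] at h3
      rw [← add_assoc]
      push_cast
      linarith
  have h2 := h1 (T - 2 ^ k) (2 ^ k)
  rw [Nat.sub_add_cancel hT] at h2
  unfold avgv
  rw [abs_div, abs_of_pos (show (0 : ℝ) < 2 ^ k by positivity), div_le_iff₀ (by positivity)]
  push_cast at h2
  linarith

/-- A meeting time at which all coordinates of the path have small dyadic energy. -/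
theorem exists_good_time {ι : Type} [Fintype ι] (x : ι → ℕ → ℝ) (s : ℝ) (K : ℕ)
    (hx : ∀ c u, |x c (u + 1) - x c u| ≤ s) :
    ∃ T ∈ Icc (2 ^ K) (2 ^ (K + 1)), ∀ c,
      ∑ k ∈ range K, (avgv (x c) k T - avgv (x c) (k + 1) T) ^ 2 ≤
        2 * Fintype.card ι * s ^ 2 := by
  classical
  have hne : (Icc (2 ^ K) (2 ^ (K + 1))).Nonempty := by
    rw [nonempty_Icc]
    exact Nat.pow_le_pow_right (by norm_num) (by omega)
  have hcard : (Icc (2 ^ K) (2 ^ (K + 1))).card = 2 ^ K + 1 := by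
    rw [Nat.card_Icc, pow_succ]; omega
  have h1 : ∑ T ∈ Icc (2 ^ K) (2 ^ (K + 1)),
      ∑ c : ι, ∑ k ∈ range K, (avgv (x c) k T - avgv (x c) (k + 1) T) ^ 2 ≤
      ∑ T ∈ Icc (2 ^ K) (2 ^ (K + 1)), 2 * Fintype.card ι * s ^ 2 := by
    rw [sum_comm]
    have h2 : ∑ c : ι, ∑ T ∈ Icc (2 ^ K) (2 ^ (K + 1)),
        ∑ k ∈ range K, (avgv (x c) k T - avgv (x c) (k + 1) T) ^ 2 ≤
        ∑ c : ι, ((2 ^ (K + 1) : ℕ) : ℝ) * s ^ 2 := by
      apply sum_le_sum
      intro c _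
      exact energy_bound (x c) s K (2 ^ (K + 1)) (hx c)
    refine h2.trans ?_
    rw [sum_const, sum_const, hcard, card_univ, nsmul_eq_mul, nsmul_eq_mul]
    push_cast
    have h3 : (0 : ℝ) ≤ 2 * Fintype.card ι * s ^ 2 := by positivity
    rw [pow_succ]
    nlinarith
  obtain ⟨T, hT, hle⟩ := exists_le_of_sum_le hne h1
  refine ⟨T, hT, fun c => ?_⟩
  refine le_trans ?_ hle
  exact single_le_sum (f := fun c => ∑ k ∈ range K,
    (avgv (x c) k T - avgv (x c) (k + 1) T) ^ 2)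
    (fun c _ => sum_nonneg (fun k _ => sq_nonneg _)) (mem_univ c)

end Pool.Agent.H.MP_ab73e1_co.helper55
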