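import Pool.Agent.H.MP_ab73e1_co.helper55.Defs

/-!
# General facts on the game: strategies given by non-anticipating functions
-/

namespace Pool.Agent.H.MP_ab73e1_co.helper55

variable {d n s m : ℕ}

/-- The play of `τ` against `σ`: the pair of histories after `t` rounds. -/
def playHist (τ : List (Vtx d) → Fin m → Vtx d) (σ : List (Fin m → Vtx d) → Vtx d) :
    ℕ → List (Vtx d) × List (Fin m → Vtx d)
  | 0 => ([], [])
  | t + 1 =>
      (σ (τ (playHist τ σ t).1 :: (playHist τ σ t).2) :: (playHist τ σ t).1,
        τ (playHist τ σ t).1 :: (playHist τ σ t).2)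

/-- If the cops have a winning strategy, then the robber does not beat them. -/
theorem not_robberBeats_of_copsWin (h : CopsWin d n s m) : ¬ RobberBeats d n s m := by
  rintro ⟨σ, hσ⟩
  obtain ⟨τ, hτ⟩ := h
  let c : ℕ → Fin m → Vtx d := fun t => τ (playHist τ σ t).1
  let r : ℕ → Vtx d := fun t => σ (τ (playHist τ σ t).1 :: (playHist τ σ t).2)
  have hr : ∀ t, hist r t = (playHist τ σ t).1 := by
    intro t
    induction t with
    | zero => rfl
    | succ t ih =>
      show r t :: hist r t = _
      rw [ih]
      rfl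
  have hc : ∀ t, hist c t = (playHist τ σ t).2 := by
    intro t
    induction t with
    | zero => rfl
    | succ t ih =>
      show c t :: hist c t = _
      rw [ih]
      rfl
  have hc' : (fun t => τ (hist r t)) = c := by
    funext t
    rw [hr]
  have hr' : (fun t => σ (hist c (t + 1))) = r := by
    funext t
    show σ (c t :: hist c t) = _
    rw [hc]
  obtain ⟨h1, h2⟩ := hτ r
  rw [hc'] at h1 h2
  obtain ⟨h3, h4⟩ := hσ c h1
  rw [hr'] at h3 h4
  exact h2 h3 h4

/-- The path described by a history (extended by `0`). -/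
def pathOf (h : List (Vtx d)) (t : ℕ) : Vtx d := h.reverse.getD t 0

theorem pathOf_cons (x : Vtx d) (h : List (Vtx d)) {u : ℕ} (hu : u < h.length) :
    pathOf (x :: h) u = pathOf h u := by
  unfold pathOf
  rw [List.reverse_cons, List.getD_append]
  simpa using hu

theorem length_hist {α : Type} (f : ℕ → α) (t : ℕ) : (hist f t).length = t := by
  induction t with
  | zero => rfl
  | succ t ih => simp [hist, ih]

theorem pathOf_hist (r : ℕ → Vtx d) (t : ℕ) : ∀ u < t, pathOf (hist r t) u = r u := by
  induction t with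
  | zero => intro u hu; omega
  | succ t ih =>
    intro u hu
    rcases Nat.lt_succ_iff_lt_or_eq.mp hu with h | h
    · show pathOf (r t :: hist r t) u = r u
      rw [pathOf_cons _ _ (by rw [length_hist]; exact h)]
      exact ih u h
    · subst h
      show pathOf (r u :: hist r u) u = r u
      unfold pathOf
      rw [List.reverse_cons, List.getD_append_right _ _ _ _ (by simp [length_hist])]
      simp [length_hist]

/-- A finite family of non-anticipating single-cop strategies, one of which catches any given
robber path, yields a winning strategy of the cops. -/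
theorem copsWin_of_family {S : Type} [Fintype S] [Nonempty S] (hcard : Fintype.card S ≤ m)
    (pos : S → (ℕ → Vtx d) → ℕ → Vtx d)
    (hna : ∀ x r r' t, (∀ u < t, r u = r' u) → pos x r t = pos x r' t)
    (hob : ∀ x r t, OnBoard n (pos x r t))
    (hnear : ∀ x r t, Near 1 (pos x r t) (pos x r (t + 1)))
    (hcatch : ∀ r : ℕ → Vtx d, (∀ t, OnBoard n (r t)) → (∀ t, Near s (r t) (r (t + 1))) →
      (∀ x r', r 0 0 + 2 * (n : ℤ) ≤ pos x r' 0 0) →
      (∀ k : ℕ, 0 < k → ∃ t, (k : ℤ) < r t 0) → ∃ x t, pos x r t = r t) :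
    CopsWin d n s m := by
  classical
  -- a surjection from `Fin m` to `S`
  obtain ⟨f, hf⟩ : ∃ f : Fin m → S, Function.Surjective f := by
    have e : S ≃ Fin (Fintype.card S) := Fintype.equivFin S
    have hpos : 0 < Fintype.card S := Fintype.card_pos
    refine ⟨fun i => if h : (i : ℕ) < Fintype.card S then e.symm ⟨i, h⟩
      else e.symm ⟨0, hpos⟩, ?_⟩
    intro x
    refine ⟨⟨e x, lt_of_lt_of_le (e x).2 hcard⟩, ?_⟩
    have : ((⟨e x, lt_of_lt_of_le (e x).2 hcard⟩ : Fin m) : ℕ) < Fintype.card S := (e x).2
    simp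
  refine ⟨fun h i => pos (f i) (pathOf h) h.length, ?_⟩
  intro r
  have key : ∀ t i, pos (f i) (pathOf (hist r t)) (hist r t).length = pos (f i) r t := by
    intro t i
    rw [length_hist]
    exact hna _ _ _ _ (pathOf_hist r t)
  have hfun : (fun t => (fun h i => pos (f i) (pathOf h) h.length : List (Vtx d) → Fin m → Vtx d)
      (hist r t)) = fun t i => pos (f i) r t := by
    funext t i
    exact key t i
  rw [hfun]
  refine ⟨⟨fun t j => hob _ _ _, fun t j => hnear _ _ _⟩, ?_⟩
  rintro ⟨⟨-, hstart⟩, hrb, hrn⟩ ⟨hfar, havoid⟩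
  obtain ⟨x, t, hxt⟩ := hcatch r hrb hrn (by
    intro x r'
    obtain ⟨j, hj⟩ := hf x
    have h1 := hstart j
    have h2 : pos (f j) (pathOf []) ([] : List (Vtx d)).length = pos x r' 0 := by
      rw [hj]
      exact hna _ _ _ _ (by intro u hu; exact absurd hu (Nat.not_lt_zero u))
    have h3 := congrFun h2 0
    simp only at h1
    rw [h3] at h1
    exact h1) hfar
  obtain ⟨j, hj⟩ := hf x
  apply (havoid t j).1
  show pos (f j) r t = r t
  rw [hj, hxt]

end Pool.Agent.H.MP_ab73e1_co.helper55
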