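import Pool.Agent.H.MP_ab73e1_co.helper55.Cop
import Pool.Agent.H.MP_ab73e1_co.helper55.Energy
import Pool.Agent.H.MP_ab73e1_co.helper55.Code

/-!
# The team of cops

One cop for every meeting time, every coarse starting vertex and every family of step functions
with few jumps.
-/

namespace Pool.Agent.H.MP_ab73e1_co.helper55

open Finset

/-- The data of one cop of the team. -/
abbrev Seed (d s K J : ℕ) : Type :=
  Fin (2 ^ K + 1) × Fin (17 * s + 1) ×
    (Fin (d + 1) → (Fin J → Fin (K + 2)) × (Fin (J + 1) → Fin (64 * s + 1)))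

theorem card_seed (d s K J : ℕ) : Fintype.card (Seed d s K J) =
    (2 ^ K + 1) * ((17 * s + 1) * ((K + 2) ^ J * (64 * s + 1) ^ (J + 1)) ^ (d + 1)) := by
  simp [Seed]

/-- The guessed displacement at scale `k`. -/
def guess {d s K J : ℕ} (x : Seed d s K J) (c : Fin (d + 1)) (k : ℕ) : ℤ :=
  (2 ^ k * decode s (x.2.2 c).1 (x.2.2 c).2 k + 16) / 32

/-- The starting vertex. -/
def start {d s K J : ℕ} (x : Seed d s K J) : Vtx d := fun c =>
  if c = 0 then (((x.2.1 : ℕ) : ℤ) - 8 * s) * 2 ^ (K - 2) else 1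

/-- The strategy of the cop `x`: he waits until the first coordinate of the robber is nonnegative
and then follows `pos0`. -/
noncomputable def teamPos (n : ℕ) {d s K J : ℕ} (x : Seed d s K J) (r : ℕ → Vtx d) (t : ℕ) :
    Vtx d := by
  classical
  exact if h : ∃ u, u < t ∧ 0 ≤ r u 0 then
    pos0 n K (2 ^ K + (x.1 : ℕ)) (guess x) (start x) (fun u => r (Nat.find h + u))
      (t - Nat.find h)
  else start x

theorem start_onBoard {n : ℕ} (hn : 1 ≤ n) {d s K J : ℕ} (x : Seed d s K J) :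
    OnBoard n (start x) := by
  intro i
  unfold start
  rw [if_neg (Fin.succ_ne_zero i)]
  constructor
  · exact le_rfl
  · exact_mod_cast hn

theorem teamPos_onBoard {n : ℕ} (hn : 1 ≤ n) {d s K J : ℕ} (x : Seed d s K J)
    (r : ℕ → Vtx d) (t : ℕ) : OnBoard n (teamPos n x r t) := by
  unfold teamPos
  split_ifs with h
  · exact pos0_onBoard hn _ _ _ (start_onBoard hn x) _ _
  · exact start_onBoard hn x

theorem teamPos_of_first {n : ℕ} {d s K J : ℕ} (x : Seed d s K J) (r : ℕ → Vtx d) {t₀ t : ℕ}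
    (h0 : 0 ≤ r t₀ 0) (h1 : ∀ u < t₀, ¬ 0 ≤ r u 0) (ht : t₀ ≤ t) :
    teamPos n x r t = pos0 n K (2 ^ K + (x.1 : ℕ)) (guess x) (start x)
      (fun u => r (t₀ + u)) (t - t₀) := by
  classical
  rcases Nat.eq_or_lt_of_le ht with h | h
  · subst h
    have hn : ¬ ∃ u, u < t₀ ∧ 0 ≤ r u 0 := by
      rintro ⟨u, hu, hu'⟩
      exact h1 u hu hu'
    unfold teamPos
    rw [dif_neg hn, Nat.sub_self]
    rfl
  · have hex : ∃ u, u < t ∧ 0 ≤ r u 0 := ⟨t₀, h, h0⟩
    have hfind : Nat.find hex = t₀ := by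
      rw [Nat.find_eq_iff]
      exact ⟨⟨h, h0⟩, fun m hm hm' => h1 m hm hm'.2⟩
    unfold teamPos
    rw [dif_pos hex]
    have : ∀ k, k = t₀ → pos0 n K (2 ^ K + (x.1 : ℕ)) (guess x) (start x)
        (fun u => r (k + u)) (t - k) = pos0 n K (2 ^ K + (x.1 : ℕ)) (guess x) (start x)
        (fun u => r (t₀ + u)) (t - t₀) := by
      rintro k rfl
      rfl
    exact this _ hfind

theorem teamPos_of_none {n : ℕ} {d s K J : ℕ} (x : Seed d s K J) (r : ℕ → Vtx d) {t : ℕ}
    (h1 : ∀ u < t, ¬ 0 ≤ r u 0) : teamPos n x r t = start x := by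
  classical
  have hn : ¬ ∃ u, u < t ∧ 0 ≤ r u 0 := by
    rintro ⟨u, hu, hu'⟩
    exact h1 u hu hu'
  unfold teamPos
  rw [dif_neg hn]

/-- Either the robber has not yet crossed before time `t`, or there is a first crossing time. -/
theorem first_or_none {d : ℕ} (r : ℕ → Vtx d) (t : ℕ) :
    (∀ u < t, ¬ 0 ≤ r u 0) ∨ ∃ t₀ < t, 0 ≤ r t₀ 0 ∧ ∀ u < t₀, ¬ 0 ≤ r u 0 := by
  classical
  by_cases h : ∃ u, u < t ∧ 0 ≤ r u 0
  · right
    have h1 := Nat.find_spec h
    refine ⟨Nat.find h, h1.1, h1.2, ?_⟩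
    intro u hu h2
    exact Nat.find_min h hu ⟨hu.trans h1.1, h2⟩
  · left
    intro u hu h2
    exact h ⟨u, hu, h2⟩

theorem teamPos_near {n : ℕ} {d s K J : ℕ} (x : Seed d s K J) (r : ℕ → Vtx d) (t : ℕ) :
    Near 1 (teamPos n x r t) (teamPos n x r (t + 1)) := by
  rcases first_or_none r (t + 1) with h | ⟨t₀, ht₀, h0, h1⟩
  · rw [teamPos_of_none x r h, teamPos_of_none x r (fun u hu => h u (by omega))]
    intro c
    simp
  · rw [teamPos_of_first x r h0 h1 (by omega : t₀ ≤ t),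
      teamPos_of_first x r h0 h1 (by omega : t₀ ≤ t + 1)]
    have e : t + 1 - t₀ = (t - t₀) + 1 := by omega
    rw [e]
    exact pos0_near _ _ _ _ _ _ _

theorem teamPos_congr {n : ℕ} {d s K J : ℕ} (x : Seed d s K J) (r r' : ℕ → Vtx d) (t : ℕ)
    (h : ∀ u < t, r u = r' u) : teamPos n x r t = teamPos n x r' t := by
  rcases first_or_none r t with h1 | ⟨t₀, ht₀, h0, h1⟩
  · rw [teamPos_of_none x r h1, teamPos_of_none x r' (fun u hu => by rw [← h u hu]; exact h1 u hu)]
  · have h0' : 0 ≤ r' t₀ 0 := by rw [← h t₀ ht₀]; exact h0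
    have h1' : ∀ u < t₀, ¬ 0 ≤ r' u 0 := fun u hu => by
      rw [← h u (hu.trans ht₀)]; exact h1 u hu
    rw [teamPos_of_first x r h0 h1 ht₀.le, teamPos_of_first x r' h0' h1' ht₀.le]
    apply pos0_congr
    intro u hu
    exact h _ (by omega)

/-- Existence of a seed matching a given path. -/
theorem exists_seed {d s K J n : ℕ} (hK : 2 ≤ K) (hn : 1 ≤ n) (hnK : n ≤ 2 ^ (K - 2))
    (hJ : 2048 * (d + 1) * s ^ 2 * K ≤ J ^ 2) (X : ℕ → Vtx d) (hX : ∀ t, OnBoard n (X t))
    (hsp : ∀ t, Near s (X t) (X (t + 1))) (h0 : 0 ≤ X 0 0) (h0' : X 0 0 ≤ s) :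
    ∃ x : Seed d s K J, pos0 n K (2 ^ K + (x.1 : ℕ)) (guess x) (start x) X
      (2 ^ K + (x.1 : ℕ)) = X (2 ^ K + (x.1 : ℕ)) := by
  classical
  set xr : Fin (d + 1) → ℕ → ℝ := fun c t => (X t c : ℝ) with hxr
  have hlip : ∀ c u, |xr c (u + 1) - xr c u| ≤ (s : ℝ) := by
    intro c u
    have h1 := hsp u c
    rw [abs_sub_comm] at h1
    have h2 : ((|X (u + 1) c - X u c| : ℤ) : ℝ) ≤ ((s : ℤ) : ℝ) := by exact_mod_cast h1
    push_cast at h2
    exact h2
  obtain ⟨T, hT, hTE⟩ := exists_good_time xr s K hlip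
  rw [mem_Icc] at hT
  have hcode : ∀ c : Fin (d + 1), ∃ p : (Fin J → Fin (K + 2)) × (Fin (J + 1) → Fin (64 * s + 1)),
      ∀ k ≤ K, |(decode s p.1 p.2 k : ℝ) / 32 - avgv (xr c) k T| ≤ 3 / 64 := by
    intro c
    obtain ⟨b, v, hbv⟩ := exists_code K J s (fun k => avgv (xr c) k T)
      (fun k hk => abs_avgv_le (xr c) s (hlip c)
        ((Nat.pow_le_pow_right (by norm_num) hk).trans hT.1)) (by
        have h1 := hTE c
        rw [Fintype.card_fin] at h1
        have h2 : (K : ℝ) * ∑ k ∈ range K, (avgv (xr c) k T - avgv (xr c) (k + 1) T) ^ 2 ≤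
            K * (2 * ((d + 1 : ℕ) : ℝ) * s ^ 2) := by
          apply mul_le_mul_of_nonneg_left h1 (by positivity)
        have h3 : ((2048 * (d + 1) * s ^ 2 * K : ℕ) : ℝ) ≤ ((J ^ 2 : ℕ) : ℝ) := by
          exact_mod_cast hJ
        push_cast at h2 h3
        nlinarith)
    exact ⟨(b, v), hbv⟩
  choose p hp using hcode
  -- the coarse position
  have hfar : ∀ u, |X u 0 - X 0 0| ≤ u * s := by
    intro u
    induction u with
    | zero => simp
    | succ u ih =>
      have h1 := hsp u 0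
      rw [abs_sub_comm] at h1
      have h2 := abs_sub_le (X (u + 1) 0) (X u 0) (X 0 0)
      push_cast
      linarith
  obtain ⟨L, rfl⟩ : ∃ L, K = L + 2 := ⟨K - 2, by omega⟩
  have eL : L + 2 - 2 = L := by omega
  rw [eL] at hnK
  set q : ℤ := X T 0 / 2 ^ L with hq
  have hpL : (1 : ℤ) ≤ 2 ^ L := one_le_pow₀ (by norm_num)
  have hT2 : (T : ℤ) ≤ 8 * 2 ^ L := by
    have h1 : (T : ℤ) ≤ ((2 ^ (L + 2 + 1) : ℕ) : ℤ) := by exact_mod_cast hT.2
    have h2 : ((2 ^ (L + 2 + 1) : ℕ) : ℤ) = 8 * 2 ^ L := by push_cast; ring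
    rw [h2] at h1
    exact h1
  have hTs : (T : ℤ) * s ≤ 8 * s * 2 ^ L := by
    have : (0 : ℤ) ≤ s := by positivity
    nlinarith
  have hXT := abs_le.mp (hfar T)
  have hq1 : -(8 * (s : ℤ)) ≤ q := by
    rw [hq, Int.le_ediv_iff_mul_le (by positivity)]
    linarith [hXT.1]
  have hq2 : q ≤ 9 * (s : ℤ) := by
    have h1 : q < 9 * (s : ℤ) + 1 := by
      rw [hq, Int.ediv_lt_iff_lt_mul (by positivity)]
      have : (0 : ℤ) ≤ s := by positivity
      nlinarith [hXT.2]
    omega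
  have hqd : |q * 2 ^ L - X T 0| ≤ 2 ^ L := by
    have h1 := Int.emod_nonneg (X T 0) (show (2 ^ L : ℤ) ≠ 0 by positivity)
    have h2 := Int.emod_lt_of_pos (X T 0) (show (0 : ℤ) < 2 ^ L by positivity)
    have h3 := Int.emod_add_mul_ediv (X T 0) (2 ^ L)
    rw [← hq] at h3
    rw [abs_le]
    constructor <;> linarith
  let x : Seed d s (L + 2) J :=
    (⟨T - 2 ^ (L + 2), by
        have := hT.2
        rw [pow_succ 2 (L + 2)] at this
        omega⟩,
      ⟨(q + 8 * s).toNat, by omega⟩, p)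
  have hx1 : 2 ^ (L + 2) + ((x.1 : Fin _) : ℕ) = T := by
    show 2 ^ (L + 2) + (T - 2 ^ (L + 2)) = T
    have := hT.1
    omega
  refine ⟨x, ?_⟩
  rw [hx1]
  apply pos0_catch n (L + 2) T (guess x) (start x) X (by omega) hT.1 (hX T)
  · -- accuracy of the guesses
    intro c k hk
    have h1 := hp c k hk
    have hdiv : |32 * guess x c k - 2 ^ k * decode s (p c).1 (p c).2 k| ≤ 16 := by
      show |32 * ((2 ^ k * decode s (p c).1 (p c).2 k + 16) / 32) - _| ≤ 16
      rw [abs_le]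
      omega
    have hdivR : |32 * (guess x c k : ℝ) - 2 ^ k * (decode s (p c).1 (p c).2 k : ℝ)| ≤ 16 := by
      have : ((|32 * guess x c k - 2 ^ k * decode s (p c).1 (p c).2 k| : ℤ) : ℝ) ≤
          ((16 : ℤ) : ℝ) := by exact_mod_cast hdiv
      push_cast at this
      exact this
    have hav : avgv (xr c) k T * 2 ^ k = (X T c : ℝ) - X (T - 2 ^ k) c := by
      unfold avgv
      rw [div_mul_cancel₀ _ (by positivity)]
    have hpk : (0 : ℝ) < 2 ^ k := by positivity
    have h2 : |2 ^ k * ((decode s (p c).1 (p c).2 k : ℝ) / 32) - avgv (xr c) k T * 2 ^ k| ≤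
        3 / 64 * 2 ^ k := by
      rw [mul_comm (avgv (xr c) k T), ← mul_sub, abs_mul, abs_of_pos hpk, mul_comm]
      exact mul_le_mul_of_nonneg_right h1 hpk.le
    rw [hav] at h2
    have h3 : |(guess x c k : ℝ) - ((X T c : ℝ) - X (T - 2 ^ k) c)| ≤ 1 / 2 + 3 / 64 * 2 ^ k := by
      rw [abs_le] at *
      constructor <;> linarith [hdivR.1, hdivR.2, h2.1, h2.2]
    have h4 : (16 : ℝ) * |(guess x c k : ℝ) - ((X T c : ℝ) - X (T - 2 ^ k) c)| ≤ 2 ^ k + 8 := by
      linarith
    have h5 : (((16 * |guess x c k - (X T c - X (T - 2 ^ k) c)| : ℤ)) : ℝ) ≤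
        ((2 ^ k + 8 : ℤ) : ℝ) := by
      push_cast
      exact h4
    exact_mod_cast h5
  · -- the starting vertex is close
    intro c
    rw [eL]
    unfold start
    split_ifs with hc
    · subst hc
      rw [eL]
      have e : (((x.2.1 : Fin _) : ℕ) : ℤ) - 8 * s = q := by
        show (((q + 8 * s).toNat : ℕ) : ℤ) - 8 * s = q
        omega
      rw [e]
      exact hqd
    · obtain ⟨i, rfl⟩ := Fin.exists_succ_eq.mpr hc
      have h1 := hX T i
      have h2 : (n : ℤ) ≤ 2 ^ L := by exact_mod_cast hnK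
      rw [abs_le]
      constructor <;> omega

/-- The main finite statement. -/
theorem copsWin_core {d s n K J m : ℕ} (hK : 2 ≤ K) (hn : 1 ≤ n) (hnK : n ≤ 2 ^ (K - 2))
    (hJ : 2048 * (d + 1) * s ^ 2 * K ≤ J ^ 2)
    (hm : (2 ^ K + 1) * ((17 * s + 1) * ((K + 2) ^ J * (64 * s + 1) ^ (J + 1)) ^ (d + 1)) ≤ m) :
    CopsWin d n s m := by
  classical
  have : Nonempty (Seed d s K J) := by
    refine ⟨(⟨0, by positivity⟩, ⟨0, by positivity⟩, fun _ => (fun _ => ⟨0, by positivity⟩,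
      fun _ => ⟨0, by positivity⟩))⟩
  apply copsWin_of_family (S := Seed d s K J) (by rw [card_seed]; exact hm) (fun x => teamPos n x)
  · intro x r r' t h
    exact teamPos_congr x r r' t h
  · intro x r t
    exact teamPos_onBoard hn x r t
  · intro x r t
    exact teamPos_near x r t
  · intro r hrb hrn hstart hfar
    -- the robber starts with negative first coordinate
    have hneg : ¬ 0 ≤ r 0 0 := by
      let x : Seed d s K J := (⟨0, by positivity⟩, ⟨8 * s, by omega⟩,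
        fun _ => (fun _ => ⟨0, by positivity⟩, fun _ => ⟨0, by positivity⟩))
      have h1 := hstart x r
      have h2 : teamPos n x r 0 = start x := teamPos_of_none x r (by intro u hu; omega)
      rw [h2] at h1
      have h3 : start x 0 = 0 := by
        unfold start
        rw [if_pos rfl]
        show (((8 * s : ℕ) : ℤ) - 8 * s) * 2 ^ (K - 2) = 0
        push_cast
        ring
      rw [h3] at h1
      have : (1 : ℤ) ≤ n := by exact_mod_cast hn
      omega
    obtain ⟨t, ht⟩ := hfar 1 one_pos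
    rcases first_or_none r (t + 1) with h | ⟨t₀, -, h0, h1⟩
    · exfalso
      apply h t (by omega)
      push_cast at ht
      omega
    · have ht0 : t₀ ≠ 0 := by
        rintro rfl
        exact hneg h0
      have hs0 : r t₀ 0 ≤ s := by
        have h2 := h1 (t₀ - 1) (by omega)
        have h3 := hrn (t₀ - 1) 0
        rw [Nat.sub_add_cancel (by omega)] at h3
        rw [abs_le] at h3
        omega
      obtain ⟨x, hx⟩ := exists_seed (J := J) hK hn hnK hJ (fun u => r (t₀ + u))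
        (fun u => hrb _) (fun u => hrn _) h0 hs0
      refine ⟨x, t₀ + (2 ^ K + (x.1 : ℕ)), ?_⟩
      rw [teamPos_of_first x r h0 h1 (by omega), Nat.add_sub_cancel_left]
      exact hx

end Pool.Agent.H.MP_ab73e1_co.helper55
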